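import Pool.Agent.H.MP_f81d0d_gt.A
import Pool.Agent.H.MP_c74059_gt.A

set_option autoImplicit false

namespace Pool.Agent.Results.MP_f81d0d_gt.Plastic

open Set Cardinal TopologicalSpace

/-- the `l1` distance on the plane -/
def d1 (u v : ℝ × ℝ) : ℝ := |u.1 - v.1| + |u.2 - v.2|

theorem result : ∃ G : AddSubgroup (ℝ × ℝ), Dense (G : Set (ℝ × ℝ)) ∧
    ∀ f : G → G, Function.Bijective f → (∀ u v : G, d1 (f u) (f v) ≤ d1 u v) →
      ∀ u v : G, d1 (f u) (f v) = d1 u v := by
  classical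
  have hc : #C(ℝ × ℝ, ℝ × ℝ) ≤ #(𝔠 : Cardinal.{0}).ord.ToType :=
    (mk_le_of_injective (f := fun f n => f (denseSeq _ n)) fun f g h => ContinuousMap.ext
      (congrFun ((denseRange_denseSeq _).equalizer f.continuous g.continuous h))).trans
      (by simp [mk_real])
  obtain ⟨e⟩ := (le_def _ _).1 hc
  let F := Function.invFun e
  let S : (𝔠 : Cardinal.{0}).ord.ToType → (_ → Option (ℝ × ℝ)) → Set (ℝ × ℝ) := fun t x =>
    range (denseSeq (ℝ × ℝ)) ∪ {y | ∃ u < t, x u = some y}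
  let B : (𝔠 : Cardinal.{0}).ord.ToType → (_ → Option (ℝ × ℝ)) → Set (ℝ × ℝ) := fun t x =>
    {z | ∃ u < t, ∃ y, x u = some y ∧ F u y = z}
  let Gd := fun t x y => ∀ z ∈ AddSubgroup.closure (insert y (S t x)), z ∉ insert (F t y) (B t x)
  obtain ⟨x, hx⟩ := Pool.Agent.H.MP_c74059_gt.wf_choice
    (fun t x a => (∀ y, a = some y → Gd t x y) ∧ (a = none → ∀ y, ¬ Gd t x y))
    (fun t x x' a h => by
      have e1 : S t x = S t x' := congrArg (range (denseSeq (ℝ × ℝ)) ∪ ·) (Set.ext fun y =>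
        show (∃ u < t, x u = some y) ↔ (∃ u < t, x' u = some y) from
        exists_congr fun u => and_congr_right fun hu => by rw [h u hu])
      have e2 : B t x = B t x' := Set.ext fun y => exists_congr fun u =>
        and_congr_right fun hu => by rw [h u hu]
      simp only [Gd, e1, e2]
      exact id)
    (fun t x _ => by
      by_cases h : ∃ y, Gd t x y
      · exact ⟨some h.choose, fun y hy => Option.some.inj hy ▸ h.choose_spec, fun h => by simp at h⟩
      · exact ⟨none, fun y h => by simp at h, fun _ y hy => h ⟨y, hy⟩⟩)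
  let G := AddSubgroup.closure (range (denseSeq (ℝ × ℝ)) ∪ {y | ∃ u, x u = some y})
  have mono : ∀ t t' y y', t ≤ t' → x t = some y → insert y (S t x) ⊆ insert y' (S t' x) ∨
      t = t' := fun t t' y y' h hy => h.eq_or_lt.symm.imp_left fun h => by
    rintro z (rfl | hz | ⟨u, h1, h2⟩)
    exacts [.inr (.inr ⟨t, h, hy⟩), .inr (.inl hz), .inr (.inr ⟨u, h1.trans h, h2⟩)]
  have mono' : ∀ t t' y y', t ≤ t' → x t = some y → x t' = some y' →
      AddSubgroup.closure (insert y (S t x)) ≤ AddSubgroup.closure (insert y' (S t' x)) := by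
    intro t t' y y' h hy hy'
    rcases mono t t' y y' h hy with h1 | rfl
    · exact AddSubgroup.closure_mono h1
    · rw [Option.some.inj (hy.symm.trans hy')]
  have dj : ∀ u y, x u = some y → F u y ∉ G := fun u y hy hG => by
    have : ∀ g ∈ G, ∃ t y', u ≤ t ∧ x t = some y' ∧
        g ∈ AddSubgroup.closure (insert y' (S t x)) := fun g hg => by
      induction hg using AddSubgroup.closure_induction with
      | mem g hg =>
        rcases hg with hg | ⟨v, hv⟩
        · exact ⟨u, y, le_rfl, hy, AddSubgroup.subset_closure (.inr (.inl hg))⟩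
        · rcases le_total u v with h | h
          · exact ⟨v, g, h, hv, AddSubgroup.subset_closure (.inl rfl)⟩
          · exact ⟨u, y, le_rfl, hy, mono' _ _ _ _ h hv hy (AddSubgroup.subset_closure (.inl rfl))⟩
      | zero => exact ⟨u, y, le_rfl, hy, zero_mem _⟩
      | add a b _ _ ha hb =>
        obtain ⟨t, z, h1, h2, h3⟩ := ha
        obtain ⟨t', z', h4, h5, h6⟩ := hb
        rcases le_total t t' with h | h
        · exact ⟨t', z', h4, h5, add_mem (mono' _ _ _ _ h h2 h5 h3) h6⟩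
        · exact ⟨t, z, h1, h2, add_mem h3 (mono' _ _ _ _ h h5 h2 h6)⟩
      | neg a _ ha =>
        obtain ⟨t, z, h1, h2, h3⟩ := ha
        exact ⟨t, z, h1, h2, neg_mem h3⟩
    obtain ⟨t, y', h1, h2, h3⟩ := this _ hG
    refine (hx t).1 y' h2 _ h3 ?_
    rcases h1.eq_or_lt with rfl | h
    · exact .inl (by rw [Option.some.inj (hy.symm.trans h2)])
    · exact .inr ⟨u, h, y, hy, rfl⟩
  refine ⟨G, (denseRange_denseSeq _).mono fun _ h => AddSubgroup.subset_closure (.inl h),
    fun f hf hd => ?_⟩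
  have lip : LipschitzOnWith 2 (fun y => if h : y ∈ G then (f ⟨y, h⟩ : ℝ × ℝ) else 0) G :=
    LipschitzOnWith.of_dist_le_mul fun a ha b hb => by
      have := hd ⟨a, ha⟩ ⟨b, hb⟩
      simp only [dif_pos (show a ∈ G from ha), dif_pos (show b ∈ G from hb), Prod.dist_eq,
        Real.dist_eq, d1, NNReal.coe_ofNat] at this ⊢
      refine max_le ?_ ?_ <;> linarith [le_max_left |a.1 - b.1| |a.2 - b.2|,
        le_max_right |a.1 - b.1| |a.2 - b.2|, abs_nonneg ((f ⟨a, ha⟩).1.1 - (f ⟨b, hb⟩).1.1),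
        abs_nonneg ((f ⟨a, ha⟩).1.2 - (f ⟨b, hb⟩).1.2)]
  obtain ⟨Φ, p1, p2⟩ := lip.extend_finite_dimension
  have p3 : ∀ u : G, Φ u = f u := fun u => (p2 u.2).symm.trans (dif_pos u.2)
  obtain ⟨t, ht⟩ : ∃ t, ∀ y, F t y = Φ y :=
    ⟨e ⟨Φ, p1.continuous⟩, fun y => by simp only [F, Function.leftInverse_invFun e.injective _]; rfl⟩
  have hn : x t = none := by
    cases h : x t with
    | none => rfl
    | some y =>
      have hy : y ∈ G := AddSubgroup.subset_closure (.inr ⟨t, h⟩)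
      exact (dj t y h (by rw [ht, p3 ⟨y, hy⟩]; exact (f _).2)).elim
  have c0 := aleph0_le_continuum.{0}
  have cI := mk_Iio_toType_ord_lt t
  have cS : #(S t x) < 𝔠 := (mk_union_le _ _).trans_lt (add_lt_of_lt c0
    (mk_range_le.trans_lt (by simpa using aleph0_lt_continuum))
    ((mk_le_mk_of_subset (t := (fun u => (x u).getD 0) '' Iio t) (by
      rintro y ⟨u, h1, h2⟩
      exact ⟨u, h1, by simp [h2]⟩)).trans_lt (mk_image_le.trans_lt cI)))
  have cB : #(B t x) < 𝔠 :=
    (mk_le_mk_of_subset (t := (fun u => F u ((x u).getD 0)) '' Iio t) (by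
      rintro z ⟨u, h1, y, h2, h3⟩
      exact ⟨u, h1, by simp [h2, h3]⟩)).trans_lt (mk_image_le.trans_lt cI)
  let A : Set (ℝ × ℝ) := AddSubgroup.closure (S t x)
  have cA : #A < 𝔠 := by
    have : Nonempty (S t x) := ⟨⟨_, .inl ⟨0, rfl⟩⟩⟩
    have : A = range (Finsupp.linearCombination ℤ ((↑) : S t x → ℝ × ℝ)) := by
      rw [← LinearMap.coe_range, Finsupp.range_linearCombination, Subtype.range_coe,
        ← Submodule.coe_toAddSubgroup, Submodule.span_int_eq_addSubgroupClosure]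
    rw [this]
    refine mk_range_le.trans_lt ?_
    rw [mk_finsupp_of_infinite']
    exact max_lt cS (by simpa using aleph0_lt_continuum)
  have AG : A ⊆ G := AddSubgroup.closure_mono (union_subset_union_right _
    fun y ⟨u, _, h⟩ => ⟨u, h⟩)
  let Z := (fun p : ℤ × ↥(insert 0 (B t x) : Set (ℝ × ℝ)) × A => (p.1 : ℝ)⁻¹ • (p.2.1.1 - p.2.2.1)) '' univ
  have cZ : #Z < 𝔠 := mk_image_le.trans_lt (by
    rw [mk_univ, mk_prod, mk_prod]
    simp only [lift_id]
    exact mul_lt_of_lt c0 (by simpa using aleph0_lt_continuum) (mul_lt_of_lt c0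
      (mk_insert_le.trans_lt (add_lt_of_lt c0 cB (one_lt_aleph0.trans_le c0))) cA))
  have hZ : ∀ y (n : ℤ), n ≠ 0 → ∀ b ∈ insert 0 (B t x), ∀ a ∈ A, (n : ℝ) • y + a = b → y ∈ Z :=
    fun y n h b hb a ha e => ⟨(n, ⟨b, hb⟩, ⟨a, ha⟩), trivial, by
      simp only [← e, add_sub_cancel_right, inv_smul_smul₀ (show (n : ℝ) ≠ 0 from Int.cast_ne_zero.2 h)]⟩
  obtain ⟨n, g, hg⟩ := Pool.Agent.H.MP_f81d0d_gt.plane Φ p1 A Z cA cZ fun y hy => by
    have h1 := (hx t).2 hn y
    simp only [Gd, not_forall, not_not] at h1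
    obtain ⟨z, z1, z2⟩ := h1
    rw [← Submodule.span_int_eq_addSubgroupClosure, Submodule.mem_toAddSubgroup,
      Submodule.mem_span_insert] at z1
    obtain ⟨n, a, a1, rfl⟩ := z1
    rw [← Submodule.mem_toAddSubgroup, Submodule.span_int_eq_addSubgroupClosure] at a1
    rw [← Int.cast_smul_eq_zsmul ℝ] at z2
    rcases z2 with z2 | z2
    · refine ⟨n, show Φ y - (n : ℝ) • y ∈ A by rwa [← ht, ← z2, add_sub_cancel_left],
        fun m hm => ?_⟩
      by_contra hmn
      refine hy (hZ y (m - n) (sub_ne_zero.2 hmn) 0 (.inl rfl) _ (sub_mem hm a1) ?_)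
      rw [← ht, ← z2, Int.cast_sub]
      module
    · rcases eq_or_ne n 0 with rfl | h
      · obtain ⟨u, -, y', h1, h2⟩ := z2
        exact (dj u y' h1 (by rw [h2]; simpa using AG a1)).elim
      · exact (hy (hZ y n h _ (.inr z2) a a1 rfl)).elim
  have key : ∀ u v : G, d1 (f u) (f v) = |(n : ℝ)| * d1 u v := fun u v => by
    simp only [← p3, hg, d1, Prod.fst_add, Prod.snd_add, Prod.smul_fst, Prod.smul_snd, smul_eq_mul,
      add_sub_add_right_eq_sub, ← mul_sub, abs_mul, mul_add]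
  intro u v
  rcases eq_or_ne n 0 with rfl | h
  · rw [hf.1 (Subtype.ext (show (f u).1 = f v by rw [← p3, ← p3, hg, hg]; simp))]
    simp [d1]
  · refine le_antisymm (hd u v) ?_
    rw [key]
    exact le_mul_of_one_le_left (add_nonneg (abs_nonneg _) (abs_nonneg _))
      (by exact_mod_cast Int.one_le_abs h)

end Pool.Agent.Results.MP_f81d0d_gt.Plastic
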